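import Mathlib
import Pool.Agent.H604.FC.Win4f

/-!
# The full Chowla conjecture in characteristic two (helper604): task WIN5
-/

set_option autoImplicit false
set_option linter.unusedSectionVars false

namespace Pool.Agent.H604.FC

open Polynomial
open Pool.Agent.H985.Chow (mob MD Wl S_key S_cmp)
open Pool.Agent.H985.KP (sg PA mobg S_cnt)
open Pool.Agent.H985.FC (gl GP S_lock S_locf S_gcs S_winF S_full)
open Pool.Agent.H985.Chow.Win (be_ne)

/-- **Task WIN5.** -/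
theorem win5 (hwinF : S_winF) (hwin4 : S_win4) : S_win5 := by
  intro k r
  obtain ⟨M, hM1, hM⟩ := hwin4 k r
  refine ⟨M, hM1, ?_⟩
  intro K _ _ _ n L D T c a E e h' h'' s g cl j₀ χ hc hE hL c1 c2 c3 c4 c5 c6 c7 c8
  have hwin : ∀ i, ∃ η : ℝ, |η| ≤ 1 ∧ ∀ u : K[X], u.degree < (L : WithBot ℕ) →
      (mobg (g i) ((a + s i + E * u) ^ 2 +
        X * (C c * (e (cl i) * (h' (cl i) * h'' (cl i)))) ^ 2) : ℝ) =
      η * ∏ᶠ P ∈ PA (h' (cl i) * h'' (cl i)),
        GP (C c * (e (cl i) * (h' (cl i) * h'' (cl i)))) (g i) P (a + s i + E * u) := by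
    intro i
    obtain ⟨d1, d2, d3, d4, d5, d6, d7, d8, d9, d10⟩ := c1 (cl i)
    exact hwinF K n L c (a + s i) (e (cl i)) (h' (cl i) * h'' (cl i)) E (g i) hc d1
      (d2.mul d3) d4 d5 (c4 i).1 (c4 i).2 hE d7 d6 hL (c6 i).1 (c6 i).2 d10
  choose η hη1 hη2 using hwin
  have hterm : ∀ u ∈ {u : K[X] | u.degree < (L : WithBot ℕ)}, χ u * ∏ i,
        (mobg (g i) ((a + s i + E * u) ^ 2 +
          X * (C c * (e (cl i) * (h' (cl i) * h'' (cl i)))) ^ 2) : ℝ) =
      (∏ i, η i) * (χ u * ∏ i, ∏ᶠ P ∈ PA (h' (cl i) * h'' (cl i)),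
        GP (C c * (e (cl i) * (h' (cl i) * h'' (cl i)))) (g i) P (a + s i + E * u)) := by
    intro u hu
    rw [Finset.prod_congr rfl fun i _ => hη2 i u hu, Finset.prod_mul_distrib]
    ring
  rw [finsum_mem_congr rfl hterm, ← mul_finsum_mem, abs_mul]
  have hη : |∏ i, η i| ≤ 1 := by
    rw [Finset.abs_prod]
    exact Finset.prod_le_one (fun i _ => abs_nonneg _) (fun i _ => hη1 i)
  have h4 := hM K L D T E (fun j => C c * (e j * (h' j * h'' j))) h' h'' (fun i => a + s i) g cl j₀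
    χ ?_ c2 c3 ?_ c7 c8
  · refine le_trans (pow_le_pow_left₀ (by positivity) ?_ _) h4
    exact mul_le_of_le_one_left (abs_nonneg _) hη
  · intro j
    obtain ⟨d1, d2, d3, d4, d5, d6, d7, d8, d9, d10⟩ := c1 j
    refine ⟨d2, d3, d5, d6, d8, d9, ?_⟩
    intro P hP h1
    have inst : Fact (Irreducible P) := ⟨hP.2.1⟩
    exact be_ne P hc d4 d5 hP.2.2 (AdjoinRoot.mk_eq_zero.2 h1)
  · intro i j hij hcl
    have e1 : a + s i - (a + s j) = s i - s j := by ring
    rw [e1]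
    exact c5 i j hij hcl

end Pool.Agent.H604.FC
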