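import Mathlib
import Pool.Agent.H985.Chow.Final
import Pool.Agent.H985.FC.Gcs
import Pool.Agent.H985.FC.Lock
import Pool.Agent.H985.FC.WinF
import Pool.Agent.H985.KP.Cnt
import Pool.Agent.H985.KP.Typ2
import Pool.Agent.H604.FC.Fin
import Pool.Agent.H604.FC.Badt
import Pool.Agent.H604.FC.Asm4
import Pool.Agent.H604.FC.Win4f
import Pool.Agent.H604.FC.Win5

/-!
# The full Chowla conjecture over `F_q[X]`, `q` even: final assembly (helper604)
-/

set_option autoImplicit false

namespace Pool.Agent.H604.FC

open Pool.Agent.H985.Chow (cmp s_key)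
open Pool.Agent.H985.KP (cnt typ2)
open Pool.Agent.H985.FC (lock locf winF S_full)

theorem s_win4 : S_win4 :=
  win4 Pool.Agent.H914.FC.gcs lock locf (fin_ cmp) (badt cnt) cnt

theorem s_win5 : S_win5 :=
  win5 (winF s_key) s_win4

theorem s_full : S_full :=
  asm4 s_win5 typ2

end Pool.Agent.H604.FC
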